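import Pool.Agent.L7lead.LA.Stm

set_option autoImplicit false

/-!
# Project LA, part BUM: a cut-off of one variable
-/

open MeasureTheory

namespace Pool.Agent.L7h65.LA

open Pool.Agent.L7lead.LA

theorem t_BUM : S_BUM := by
  let g : ContDiffBump (0 : ℝ) := ⟨1 / 2, 1, by norm_num, by norm_num⟩
  have hg : ContDiff ℝ 3 (g : ℝ → ℝ) := g.contDiff
  have hc : HasCompactSupport (g : ℝ → ℝ) := g.hasCompactSupport
  have hg1 : ContDiff ℝ 2 (deriv (g : ℝ → ℝ)) := by
    have h := (contDiff_succ_iff_deriv (n := 2) (f := (g : ℝ → ℝ))).1 (by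
      have e : (2:WithTop ℕ∞) + 1 = 3 := by norm_num
      rw [e]; exact hg)
    exact h.2.2
  have hg2 : ContDiff ℝ 1 (deriv (deriv (g : ℝ → ℝ))) := by
    have h := (contDiff_succ_iff_deriv (n := 1) (f := deriv (g : ℝ → ℝ))).1 (by
      have e : (1:WithTop ℕ∞) + 1 = 2 := by norm_num
      rw [e]; exact hg1)
    exact h.2.2
  have hc1 : HasCompactSupport (deriv (g : ℝ → ℝ)) := hc.deriv
  have hc2 : HasCompactSupport (deriv (deriv (g : ℝ → ℝ))) := hc1.deriv
  obtain ⟨B1, hB1⟩ := hg1.continuous.bounded_above_of_compact_support hc1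
  obtain ⟨B2, hB2⟩ := hg2.continuous.bounded_above_of_compact_support hc2
  set B := max (max B1 B2) 1 with hB
  have hB0 : 0 < B := lt_of_lt_of_le one_pos (le_max_right _ _)
  have hd1 : ∀ t, |deriv (g : ℝ → ℝ) t| ≤ B := fun t => by
    rw [← Real.norm_eq_abs]
    exact (hB1 t).trans ((le_max_left _ _).trans (le_max_left _ _))
  refine ⟨g, B, hB0, ?_⟩
  constructor
  · exact hg.of_le (by norm_num)
  · exact fun t => g.nonneg
  · exact fun t => g.le_one
  · intro t ht
    refine g.zero_of_le_dist ?_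
    rw [Real.dist_eq, sub_zero]
    exact ht
  · intro t ht
    refine g.one_of_mem_closedBall ?_
    rw [Metric.mem_closedBall, Real.dist_eq, sub_zero]
    exact ht
  · exact hd1
  · intro t
    rw [← Real.norm_eq_abs]
    exact (hB2 t).trans ((le_max_right _ _).trans (le_max_left _ _))
  · intro s t
    have h := Convex.norm_image_sub_le_of_norm_deriv_le (f := (g : ℝ → ℝ)) (C := B)
      (s := Set.univ) (x := t) (y := s)
      (fun x _ => hg.contDiffAt.differentiableAt (by norm_num))
      (fun x _ => by rw [Real.norm_eq_abs]; exact hd1 x) convex_univ (Set.mem_univ _)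
      (Set.mem_univ _)
    rw [Real.norm_eq_abs, Real.norm_eq_abs] at h
    exact h

end Pool.Agent.L7h65.LA
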