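import Pool.Agent.L7lead.LA.Stm

set_option autoImplicit false

/-!
# Project LA, part CEZ: cells vanish outside their cubes
-/

open MeasureTheory Filter Topology

namespace Pool.Agent.L7h65.LA

open Pool.Agent.L7lead.LA

/-- A continuous function vanishing for `|t| > 1` vanishes for `|t| ≥ 1`. -/
theorem zero_edge {g : ℝ → ℝ} (hg : Continuous g) (h0 : ∀ t, 1 < |t| → g t = 0) (t : ℝ)
    (ht : 1 ≤ |t|) : g t = 0 := by
  have h1 : Tendsto (fun s : ℝ => g (t * s)) (𝓝[>] 1) (𝓝 (g t)) := by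
    have h2 : Continuous fun s : ℝ => g (t * s) := hg.comp (continuous_const.mul continuous_id)
    have h3 := (h2.tendsto 1)
    simp only [mul_one] at h3
    exact h3.mono_left nhdsWithin_le_nhds
  have h4 : Tendsto (fun s : ℝ => g (t * s)) (𝓝[>] 1) (𝓝 0) := by
    refine tendsto_const_nhds.congr' ?_
    filter_upwards [self_mem_nhdsWithin] with s hs
    have hs1 : 1 < s := hs
    refine (h0 _ ?_).symm
    rw [abs_mul, abs_of_pos (by linarith : (0:ℝ) < s)]
    nlinarith [abs_nonneg t]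
  exact tendsto_nhds_unique h1 h4

theorem deriv_zero {h : ℝ → ℝ} (h0 : ∀ t, 1 ≤ |t| → h t = 0) : ∀ t, 1 < |t| → deriv h t = 0 := by
  intro t ht
  have h1 : h =ᶠ[𝓝 t] fun _ => 0 := by
    have h2 : {s : ℝ | 1 < |s|} ∈ 𝓝 t :=
      (isOpen_lt continuous_const continuous_abs).mem_nhds ht
    filter_upwards [h2] with s hs
    exact h0 s (le_of_lt hs)
  rw [h1.deriv_eq]
  simp

variable {h : ℝ → ℝ} {B : ℝ}

theorem d1_cont (hh : IsBump h B) : Continuous (deriv h) :=
  hh.smooth.continuous_deriv (by norm_num)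

theorem d1_smooth (hh : IsBump h B) : ContDiff ℝ 1 (deriv h) := by
  have h1 := (contDiff_succ_iff_deriv (n := 1) (f := h)).1 (by
    have e : (1:WithTop ℕ∞) + 1 = 2 := by norm_num
    rw [e]; exact hh.smooth)
  exact h1.2.2

theorem d2_cont (hh : IsBump h B) : Continuous (deriv (deriv h)) :=
  (d1_smooth hh).continuous_deriv le_rfl

theorem d1_zero (hh : IsBump h B) : ∀ t, 1 ≤ |t| → deriv h t = 0 :=
  zero_edge (d1_cont hh) (deriv_zero hh.zero)

theorem d2_zero (hh : IsBump h B) : ∀ t, 1 ≤ |t| → deriv (deriv h) t = 0 :=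
  zero_edge (d2_cont hh) (deriv_zero (d1_zero hh))

theorem coord_cont (j : Fin 3) : Continuous fun x : E => x j :=
  (EuclideanSpace.proj (𝕜 := ℝ) j).continuous

theorem arg_cont (L : ℝ) (i : Fin 3 → ℤ) (j : Fin 3) : Continuous fun x : E => x j / L - i j :=
  ((coord_cont j).div_const L).sub continuous_const

theorem Hc_cont (hh : IsBump h B) (L : ℝ) (i : Fin 3 → ℤ) : Continuous (Hc h L i) := by
  unfold Hc
  exact continuous_finsetProd _ fun j _ => hh.smooth.continuous.comp (arg_cont L i j)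

theorem H1_cont (hh : IsBump h B) (L : ℝ) (i : Fin 3 → ℤ) (j : Fin 3) :
    Continuous (H1 h L i j) := by
  unfold H1
  refine (continuous_finsetProd _ fun m _ => hh.smooth.continuous.comp (arg_cont L i m)).mul ?_
  exact ((d1_cont hh).comp (arg_cont L i j)).div_const L

theorem H2_cont (hh : IsBump h B) (L : ℝ) (i : Fin 3 → ℤ) (j : Fin 3) :
    Continuous (H2 h L i j) := by
  unfold H2
  refine (continuous_finsetProd _ fun m _ => hh.smooth.continuous.comp (arg_cont L i m)).mul ?_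
  exact ((d2_cont hh).comp (arg_cont L i j)).div_const (L ^ 2)

theorem sq_pos' {R : ℝ} (hR : 0 < R) (x : E) : Real.sqrt (R ^ 2 + ‖x‖ ^ 2) ≠ 0 :=
  (Real.sqrt_pos.2 (by positivity)).ne'

theorem sqrt_cont (R : ℝ) : Continuous fun x : E => Real.sqrt (R ^ 2 + ‖x‖ ^ 2) :=
  (continuous_const.add (continuous_norm.pow 2)).sqrt

theorem w_cont (κ R : ℝ) : Continuous (w κ R) := by
  unfold w psi
  exact Real.continuous_exp.comp ((continuous_const.mul ((sqrt_cont R).sub continuous_const)).neg)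

theorem P1_cont (κ : ℝ) {R : ℝ} (hR : 0 < R) (j : Fin 3) : Continuous (P1 κ R j) := by
  unfold P1
  exact (continuous_const.mul (coord_cont j)).div (sqrt_cont R) (sq_pos' hR)

theorem P2_cont (κ : ℝ) {R : ℝ} (hR : 0 < R) (j : Fin 3) : Continuous (P2 κ R j) := by
  unfold P2
  refine continuous_const.mul (Continuous.sub ?_ ?_)
  · exact continuous_const.div (sqrt_cont R) (sq_pos' hR)
  · exact ((coord_cont j).pow 2).div ((sqrt_cont R).pow 3) fun x => pow_ne_zero 3 (sq_pos' hR x)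

theorem ang_cont (L : ℝ) (k : E) (i : Fin 3 → ℤ) :
    Continuous fun x : E => (inner ℝ k (x - L • pt i) : ℝ) :=
  continuous_const.inner (continuous_id.sub continuous_const)

theorem cell_cont (hh : IsBump h B) (κ R L : ℝ) (k : E) (i : Fin 3 → ℤ) :
    Continuous (cell κ R L h k i) := by
  unfold cell
  exact (w_cont κ R).mul ((Hc_cont hh L i).mul (Real.continuous_cos.comp (ang_cont L k i)))

theorem gcell_cont (hh : IsBump h B) (κ : ℝ) {R : ℝ} (hR : 0 < R) (L : ℝ) (k : E)
    (i : Fin 3 → ℤ) : Continuous (gcell κ R L h k i) := by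
  unfold gcell
  refine (w_cont κ R).mul (continuous_finsetSum _ fun j _ => ?_)
  have hc : Continuous fun x : E => Real.cos (inner ℝ k (x - L • pt i)) :=
    Real.continuous_cos.comp (ang_cont L k i)
  have hs : Continuous fun x : E => Real.sin (inner ℝ k (x - L • pt i)) :=
    Real.continuous_sin.comp (ang_cont L k i)
  have h1 := P1_cont κ hR j
  have h2 := P2_cont κ hR j
  have h3 := Hc_cont hh L i
  have h4 := H1_cont hh L i j
  have h5 := H2_cont hh L i j
  exact ((((((((h1.pow 2).sub h2).mul h3).mul hc).add (h5.mul hc)).sub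
    ((h3.mul continuous_const).mul hc)).sub (((continuous_const.mul h1).mul h4).mul hc)).add
    ((((continuous_const.mul h1).mul h3).mul continuous_const).mul hs)).sub
    (((continuous_const.mul h4).mul continuous_const).mul hs)

theorem Hc_zero (hh : IsBump h B) {L : ℝ} {i : Fin 3 → ℤ} {x : E} {j : Fin 3}
    (hj : 1 ≤ |x j / L - i j|) : Hc h L i x = 0 := by
  unfold Hc
  exact Finset.prod_eq_zero (Finset.mem_univ j) (hh.zero _ hj)

theorem H1_zero (hh : IsBump h B) {L : ℝ} {i : Fin 3 → ℤ} {x : E} {j : Fin 3}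
    (hj : 1 ≤ |x j / L - i j|) (m : Fin 3) : H1 h L i m x = 0 := by
  unfold H1
  by_cases hm : m = j
  · subst hm
    rw [d1_zero hh _ hj, zero_div, mul_zero]
  · rw [Finset.prod_eq_zero (Finset.mem_erase.2 ⟨Ne.symm hm, Finset.mem_univ j⟩) (hh.zero _ hj),
      zero_mul]

theorem H2_zero (hh : IsBump h B) {L : ℝ} {i : Fin 3 → ℤ} {x : E} {j : Fin 3}
    (hj : 1 ≤ |x j / L - i j|) (m : Fin 3) : H2 h L i m x = 0 := by
  unfold H2
  by_cases hm : m = j
  · subst hm
    rw [d2_zero hh _ hj, zero_div, mul_zero]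
  · rw [Finset.prod_eq_zero (Finset.mem_erase.2 ⟨Ne.symm hm, Finset.mem_univ j⟩) (hh.zero _ hj),
      zero_mul]

theorem cell_zero (hh : IsBump h B) (κ R : ℝ) {L : ℝ} (k : E) {i : Fin 3 → ℤ} {x : E}
    (hx : ∃ j, 1 ≤ |x j / L - i j|) : cell κ R L h k i x = 0 := by
  obtain ⟨j, hj⟩ := hx
  unfold cell
  rw [Hc_zero hh hj]
  ring

theorem gcell_zero (hh : IsBump h B) (κ R : ℝ) {L : ℝ} (k : E) {i : Fin 3 → ℤ} {x : E}
    (hx : ∃ j, 1 ≤ |x j / L - i j|) : gcell κ R L h k i x = 0 := by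
  obtain ⟨j, hj⟩ := hx
  unfold gcell
  rw [Finset.sum_eq_zero, mul_zero]
  intro m _
  rw [Hc_zero hh hj, H1_zero hh hj, H2_zero hh hj]
  ring

theorem t_CEZ : S_CEZ := by
  intro h B hh κ R L hR hL k i
  refine ⟨cell_cont hh κ R L k i, gcell_cont hh κ hR L k i, ?_, fun x hx =>
    ⟨cell_zero hh κ R k hx, gcell_zero hh κ R k hx⟩⟩
  refine HasCompactSupport.intro
    (isCompact_closedBall (0 : E) (Real.sqrt (∑ j : Fin 3, (L * (|(i j : ℝ)| + 1)) ^ 2))) ?_
  intro x hx
  refine cell_zero hh κ R k ?_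
  by_contra hno
  push Not at hno
  refine hx ?_
  rw [Metric.mem_closedBall, dist_zero_right, EuclideanSpace.norm_eq]
  refine Real.sqrt_le_sqrt (Finset.sum_le_sum fun j _ => ?_)
  refine pow_le_pow_left₀ (norm_nonneg _) ?_ 2
  have h1 := hno j
  have h2 : |x j / L| ≤ |(i j : ℝ)| + 1 := by
    have h3 : x j / L = (x j / L - i j) + i j := by ring
    rw [h3]
    refine (abs_add_le _ _).trans ?_
    linarith
  rw [abs_div, abs_of_pos hL, div_le_iff₀ hL] at h2
  rw [Real.norm_eq_abs]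
  linarith

end Pool.Agent.L7h65.LA
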