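import Pool.Agent.L7lead.LA.Stm

set_option autoImplicit false

/-!
# Project LA, part CIR: separated points on a circle
-/

open MeasureTheory

namespace Pool.Agent.L7h65.LA

open Pool.Agent.L7lead.LA

/-- Two orthonormal vectors orthogonal to a given one. -/
theorem two_orth (n : E) : ∃ e f : E, ‖e‖ = 1 ∧ ‖f‖ = 1 ∧ inner ℝ e f = (0:ℝ) ∧
    inner ℝ e n = (0:ℝ) ∧ inner ℝ f n = (0:ℝ) := by
  have h1 : Module.finrank ℝ (Submodule.span ℝ ({n} : Set E)) ≤ 1 := by
    refine (finrank_span_le_card ({n} : Set E)).trans ?_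
    simp
  have h2 : Module.finrank ℝ (Submodule.span ℝ ({n} : Set E)) +
      Module.finrank ℝ (Submodule.span ℝ ({n} : Set E))ᗮ = 3 := by
    rw [Submodule.finrank_add_finrank_orthogonal]
    simp
  have h3 : 2 ≤ Module.finrank ℝ (Submodule.span ℝ ({n} : Set E))ᗮ := by omega
  set V := (Submodule.span ℝ ({n} : Set E))ᗮ with hV
  let b := stdOrthonormalBasis ℝ V
  have hb := b.orthonormal
  let i0 : Fin (Module.finrank ℝ V) := ⟨0, by omega⟩
  let i1 : Fin (Module.finrank ℝ V) := ⟨1, by omega⟩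
  have hne : i0 ≠ i1 := by
    intro h
    have := congrArg Fin.val h
    simp [i0, i1] at this
  have hperp : ∀ v : V, inner ℝ (v : E) n = (0:ℝ) := by
    intro v
    have h4 : (v : E) ∈ (Submodule.span ℝ ({n} : Set E))ᗮ := v.2
    rw [Submodule.mem_orthogonal'] at h4
    exact h4 n (Submodule.mem_span_singleton_self n)
  refine ⟨b i0, b i1, ?_, ?_, ?_, hperp _, hperp _⟩
  · exact hb.1 i0
  · exact hb.1 i1
  · exact hb.2 hne

theorem cos_far (x : ℝ) (h1 : 2 * Real.pi / 53 ≤ x) (h2 : x ≤ 2 * Real.pi - 2 * Real.pi / 53) :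
    Real.cos x ≤ 1 - 1 / 200 := by
  have hp := Real.pi_gt_three
  have hp' := Real.pi_lt_d2
  have h3 : Real.cos (2 * Real.pi / 53) ≤ 1 - 1 / 200 := by
    have h4 := Real.cos_bound (x := 2 * Real.pi / 53) (by
      rw [abs_of_pos (by positivity)]; linarith)
    rw [abs_of_pos (by positivity : (0:ℝ) < 2 * Real.pi / 53)] at h4
    have h5 := (abs_le.1 h4).2
    have h6 : (0.113:ℝ) ≤ 2 * Real.pi / 53 := by linarith
    have h7 : 2 * Real.pi / 53 ≤ (0.12:ℝ) := by linarith
    set y := 2 * Real.pi / 53 with hy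
    have h8 : y ^ 4 ≤ (0.12:ℝ) ^ 4 := pow_le_pow_left₀ (by linarith) h7 4
    have h9 : (0.113:ℝ) ^ 2 ≤ y ^ 2 := pow_le_pow_left₀ (by norm_num) h6 2
    norm_num at h8 h9
    linarith
  rcases le_total x Real.pi with h | h
  · refine le_trans ?_ h3
    exact Real.cos_le_cos_of_nonneg_of_le_pi (by positivity) h h1
  · have e : Real.cos x = Real.cos (2 * Real.pi - x) := by rw [Real.cos_two_pi_sub]
    rw [e]
    refine le_trans ?_ h3
    exact Real.cos_le_cos_of_nonneg_of_le_pi (by positivity) (by linarith) (by linarith)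

theorem t_CIR : S_CIR := by
  intro n r hr
  obtain ⟨e, f, he, hf, hef, hen, hfn⟩ := two_orth n
  have hr0 : 0 < r := by linarith
  let th : Fin 53 → ℝ := fun a => 2 * Real.pi * (a : ℕ) / 53
  let p : Fin 53 → E := fun a => (r * Real.cos (th a)) • e + (r * Real.sin (th a)) • f
  have hfe : inner ℝ f e = (0:ℝ) := by rw [real_inner_comm]; exact hef
  have hnorm : ∀ x y : ℝ, ‖x • e + y • f‖ ^ 2 = x ^ 2 + y ^ 2 := by
    intro x y
    rw [← real_inner_self_eq_norm_sq]
    simp only [inner_add_left, inner_add_right, inner_smul_left, inner_smul_right, hef, hfe,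
      real_inner_self_eq_norm_sq, he, hf]
    simp
    ring
  refine ⟨p, fun a => ⟨?_, ?_⟩, ?_⟩
  · have h1 := hnorm (r * Real.cos (th a)) (r * Real.sin (th a))
    have h2 : (r * Real.cos (th a)) ^ 2 + (r * Real.sin (th a)) ^ 2 = r ^ 2 := by
      have := Real.sin_sq_add_cos_sq (th a)
      calc _ = r ^ 2 * (Real.sin (th a) ^ 2 + Real.cos (th a) ^ 2) := by ring
        _ = r ^ 2 := by rw [this]; ring
    rw [h2] at h1
    exact (sq_eq_sq₀ (norm_nonneg _) hr0.le).1 h1
  · simp only [p, inner_add_left, inner_smul_left, hen, hfn]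
    simp
  · have key : ∀ a b : Fin 53, (b : ℕ) < (a : ℕ) → 1 / 10 ≤ ‖p a - p b‖ := by
      intro a b hab
      have e1 : p a - p b = (r * (Real.cos (th a) - Real.cos (th b))) • e +
          (r * (Real.sin (th a) - Real.sin (th b))) • f := by
        simp only [p]
        module
      have h1 := hnorm (r * (Real.cos (th a) - Real.cos (th b)))
        (r * (Real.sin (th a) - Real.sin (th b)))
      rw [← e1] at h1
      have h2 : (r * (Real.cos (th a) - Real.cos (th b))) ^ 2 +
          (r * (Real.sin (th a) - Real.sin (th b))) ^ 2 =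
          r ^ 2 * (2 - 2 * Real.cos (th a - th b)) := by
        rw [Real.cos_sub]
        have s1 := Real.sin_sq_add_cos_sq (th a)
        have s2 := Real.sin_sq_add_cos_sq (th b)
        calc _ = r ^ 2 * ((Real.sin (th a) ^ 2 + Real.cos (th a) ^ 2) +
              (Real.sin (th b) ^ 2 + Real.cos (th b) ^ 2) -
              2 * (Real.cos (th a) * Real.cos (th b) + Real.sin (th a) * Real.sin (th b))) := by
              ring
          _ = _ := by rw [s1, s2]; ring
      have e2 : th a - th b = 2 * Real.pi * (((a : ℕ) : ℝ) - ((b : ℕ) : ℝ)) / 53 := by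
        simp only [th]; ring
      have h3 : (1:ℝ) ≤ ((a : ℕ) : ℝ) - ((b : ℕ) : ℝ) := by
        have : ((b : ℕ) : ℝ) + 1 ≤ ((a : ℕ) : ℝ) := by exact_mod_cast hab
        linarith
      have h4 : ((a : ℕ) : ℝ) - ((b : ℕ) : ℝ) ≤ 52 := by
        have h5 : ((a : ℕ) : ℝ) ≤ 52 := by
          have := a.2
          exact_mod_cast (by omega : (a : ℕ) ≤ 52)
        have h6 : (0:ℝ) ≤ ((b : ℕ) : ℝ) := Nat.cast_nonneg _
        linarith
      have hp := Real.pi_pos
      have h7 : Real.cos (th a - th b) ≤ 1 - 1 / 200 := by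
        rw [e2]
        refine cos_far _ ?_ ?_
        · refine div_le_div_of_nonneg_right ?_ (by norm_num)
          nlinarith
        · have : 2 * Real.pi * (((a : ℕ) : ℝ) - ((b : ℕ) : ℝ)) / 53 ≤ 2 * Real.pi * 52 / 53 := by
            refine div_le_div_of_nonneg_right ?_ (by norm_num)
            nlinarith
          linarith
      have h8 : (1 / 10 : ℝ) ^ 2 ≤ ‖p a - p b‖ ^ 2 := by
        rw [h1, h2]
        have h9 : (1:ℝ) ≤ r ^ 2 := by nlinarith
        have h10 : (1 / 100 : ℝ) ≤ 2 - 2 * Real.cos (th a - th b) := by linarith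
        nlinarith
      exact le_of_sq_le_sq h8 (norm_nonneg _)
    intro a b hab
    rcases lt_trichotomy (a : ℕ) (b : ℕ) with h | h | h
    · rw [norm_sub_rev]; exact key b a h
    · exact absurd (Fin.ext h) hab
    · exact key a b h

end Pool.Agent.L7h65.LA
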