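import Pool.Agent.L7lead.LA.Stm

set_option autoImplicit false

/-!
# Project LA, part GRE: greedy choice of the frequencies
-/

open MeasureTheory

namespace Pool.Agent.L7h65.LA

open Pool.Agent.L7lead.LA

/-- Greedy choice along the natural numbers. -/
theorem greedy {X : Type} (Q : (i : ℕ) → ((j : ℕ) → j < i → X) → X → Prop)
    (h : ∀ i g, ∃ x, Q i g x) : ∃ c : ℕ → X, ∀ i, Q i (fun j _ => c j) (c i) := by
  classical
  let F : (i : ℕ) → ((j : ℕ) → j < i → X) → X := fun i g => Classical.choose (h i g)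
  let c : ℕ → X := (Nat.lt_wfRel.wf).fix F
  refine ⟨c, fun i => ?_⟩
  have e : c i = F i (fun j _ => c j) := (Nat.lt_wfRel.wf).fix_eq F i
  rw [e]
  exact Classical.choose_spec (h i _)

/-- The neighbours. -/
noncomputable def nb (i : Fin 3 → ℤ) : Finset (Fin 3 → ℤ) :=
  (Fintype.piFinset fun m => Finset.Icc (i m - 1) (i m + 1)).erase i

theorem nb_card (i : Fin 3 → ℤ) : (nb i).card = 26 := by
  unfold nb
  rw [Finset.card_erase_of_mem, Fintype.card_piFinset]
  · have : ∀ m, (Finset.Icc (i m - 1) (i m + 1)).card = 3 := by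
      intro m
      rw [Int.card_Icc]
      have : i m + 1 + 1 - (i m - 1) = 3 := by ring
      rw [this]
      rfl
    simp [this]
  · rw [Fintype.mem_piFinset]
    intro m
    rw [Finset.mem_Icc]
    constructor <;> omega

theorem mem_nb {i j : Fin 3 → ℤ} (hij : i ≠ j) (h : ∀ m, |i m - j m| ≤ 1) : j ∈ nb i := by
  unfold nb
  rw [Finset.mem_erase, Fintype.mem_piFinset]
  refine ⟨hij.symm, fun m => ?_⟩
  rw [Finset.mem_Icc]
  have := abs_le.1 (h m)
  constructor <;> omega

/-- Each vector forbids at most one of the separated points. -/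
theorem forb_one {p : Fin 53 → E} (hp : ∀ a b, a ≠ b → 1 / 10 ≤ ‖p a - p b‖) (v : E) :
    (Finset.univ.filter fun a => ‖p a - v‖ < 1 / 20).card ≤ 1 := by
  rw [Finset.card_le_one]
  intro a ha b hb
  rw [Finset.mem_filter] at ha hb
  by_contra hab
  have h1 := hp a b hab
  have h2 : ‖p a - p b‖ ≤ ‖p a - v‖ + ‖p b - v‖ := by
    have e : p a - p b = (p a - v) - (p b - v) := by abel
    rw [e]
    exact norm_sub_le _ _
  linarith [ha.2, hb.2]

/-- A good point. -/
theorem good_pt {p : Fin 53 → E} (hp : ∀ a b, a ≠ b → 1 / 10 ≤ ‖p a - p b‖)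
    (i : Fin 3 → ℤ) (k : (Fin 3 → ℤ) → E) : ∃ a, ∀ j ∈ nb i,
      1 / 20 ≤ ‖p a - k j‖ ∧ 1 / 20 ≤ ‖p a + k j‖ := by
  classical
  by_contra hno
  push Not at hno
  have h1 : (Finset.univ : Finset (Fin 53)) ⊆ (nb i).biUnion fun j =>
      (Finset.univ.filter fun a => ‖p a - k j‖ < 1 / 20) ∪
      (Finset.univ.filter fun a => ‖p a - (-(k j))‖ < 1 / 20) := by
    intro a _
    obtain ⟨j, hj, h2⟩ := hno a
    rw [Finset.mem_biUnion]
    refine ⟨j, hj, ?_⟩
    rw [Finset.mem_union, Finset.mem_filter, Finset.mem_filter]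
    by_cases h3 : ‖p a - k j‖ < 1 / 20
    · exact Or.inl ⟨Finset.mem_univ _, h3⟩
    · refine Or.inr ⟨Finset.mem_univ _, ?_⟩
      rw [sub_neg_eq_add]
      exact h2 (not_lt.1 h3)
  have h2 := Finset.card_le_card h1
  have h3 : ((nb i).biUnion fun j =>
      (Finset.univ.filter fun a => ‖p a - k j‖ < 1 / 20) ∪
      (Finset.univ.filter fun a => ‖p a - (-(k j))‖ < 1 / 20)).card ≤ (nb i).card * 2 := by
    refine Finset.card_biUnion_le_card_mul _ _ _ fun j _ => ?_
    refine (Finset.card_union_le _ _).trans ?_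
    have a1 := forb_one hp (k j)
    have a2 := forb_one hp (-(k j))
    omega
  rw [nb_card] at h3
  rw [Finset.card_univ, Fintype.card_fin] at h2
  omega

theorem t_GRE (hCIR : S_CIR) : S_GRE := by
  classical
  intro r hr
  choose p hp hsep using fun i : Fin 3 → ℤ => hCIR (pt i) (r i) (hr i)
  obtain ⟨e⟩ : Nonempty ((Fin 3 → ℤ) ≃ ℕ) := nonempty_equiv_of_countable
  -- partial choices extended by zero
  let ext : (i : ℕ) → ((j : ℕ) → j < i → Fin 53) → (Fin 3 → ℤ) → E := fun i g x =>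
    if h : e x < i then p x (g (e x) h) else 0
  obtain ⟨c, hc⟩ := greedy (X := Fin 53) (fun i g a => ∀ j ∈ nb (e.symm i),
    1 / 20 ≤ ‖p (e.symm i) a - ext i g j‖ ∧ 1 / 20 ≤ ‖p (e.symm i) a + ext i g j‖)
    (fun i g => good_pt (hsep _) _ _)
  refine ⟨fun x => p x (c (e x)), fun x => hp x _, ?_⟩
  have key : ∀ x y, x ≠ y → (∀ m, |x m - y m| ≤ 1) → e y < e x →
      1 / 20 ≤ ‖p x (c (e x)) - p y (c (e y))‖ ∧ 1 / 20 ≤ ‖p x (c (e x)) + p y (c (e y))‖ := by
    intro x y hxy hm hlt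
    have h1 := hc (e x) y (by rw [Equiv.symm_apply_apply]; exact mem_nb hxy hm)
    rw [Equiv.symm_apply_apply] at h1
    simp only [ext, dif_pos hlt] at h1
    exact h1
  intro x y hxy hm
  rcases lt_trichotomy (e y) (e x) with h | h | h
  · exact key x y hxy hm h
  · exact absurd (e.injective h).symm hxy
  · have h1 := key y x hxy.symm (fun m => by rw [abs_sub_comm]; exact hm m) h
    refine ⟨?_, ?_⟩
    · rw [norm_sub_rev]; exact h1.1
    · rw [add_comm]; exact h1.2

end Pool.Agent.L7h65.LA
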